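import Pool.Agent.N798.Pt

/-!
# The Lindelöf hypothesis along almost every arithmetic progression

* (all exponents) Let `a`, `b` be real sequences, `b n → ∞`. For almost every real `α` for which the sequence
  `t n = a n + α b n` tends to infinity with bounded gaps the bounds `|ζ(1/2 + i t n)| = O((1 + |t n|)^(κ + ε))` for all
  `ε > 0` hold if and only if `ζ(1/2 + it) = O((1 + |t|)^(κ + ε))` for all `ε > 0`, for every `κ ≥ 0`: zeta has the
  same growth exponent along the sequence and on the whole critical line.  Examples are the progressions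
  `t n = α n`, and also `t n = n + α g(n)` for every increasing unbounded `g` with bounded increments, such as
  `g(n) = log log (n + 3)`.
* (criterion) The Lindelöf hypothesis holds if and only if the set of the `α > 0` for which
  `ζ(1/2 + iαn) = O(n^ε)` for all `ε > 0` is not a null set.

Proof.  Around every large value of zeta there is a window of constant length in which zeta is almost as large on a
set of constant measure (`Pool.Agent.R303.LM.law`, helper303 of an earlier round).  If the bound fails on the line, then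
around each `α` there are arbitrarily small intervals a fixed proportion of which consists of numbers `α'` for
which the sequence meets such a set; Lebesgue's density theorem.
-/

set_option autoImplicit false

open Filter Topology MeasureTheory

namespace Pool.Agent.Results.MP_4e5e8a_nt.AlmostEverySequence

/-- `|ζ(1/2 + it)|` -/
noncomputable def Z (t : ℝ) : ℝ := ‖riemannZeta (1 / 2 + t * Complex.I)‖

/-- `|ζ(1/2 + it)| = O((1 + |t|)^(κ + ε))` for every `ε > 0`; for `κ = 0` this is the Lindelöf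
hypothesis. -/
def Exponent (κ : ℝ) : Prop := ∀ ε : ℝ, 0 < ε → ∃ C : ℝ, ∀ t : ℝ, Z t ≤ C * (1 + |t|) ^ (κ + ε)

/-- The same bound at the points of the sequence `t` only. -/
def ExponentAlong (t : ℕ → ℝ) (κ : ℝ) : Prop :=
  ∀ ε : ℝ, 0 < ε → ∃ C : ℝ, ∀ n : ℕ, Z (t n) ≤ C * (1 + |t n|) ^ (κ + ε)

lemma along_nat {α : ℝ} (hα : 0 < α) (h : ∀ ε : ℝ, 0 < ε → ∃ C : ℝ, ∀ n : ℕ, 1 ≤ n → Z (α * n) ≤ C * (n : ℝ) ^ ε) :
    N798.ExpAlong (fun n => 0 + α * n) 0 := by
  intro ε hε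
  obtain ⟨C, hC⟩ := h ε hε
  refine ⟨|C| * (max 1 (1 / α)) ^ ε + Z 0, fun n => ?_⟩
  have hZ0 : 0 ≤ Z 0 := norm_nonneg _
  have h1 : 1 ≤ (1 + |0 + α * (n : ℝ)|) ^ (0 + ε) := Real.one_le_rpow (by linarith [abs_nonneg (0 + α * (n : ℝ))])
    (by linarith)
  have hD : 1 ≤ max 1 (1 / α) := le_max_left _ _
  have hD0 : 0 < max 1 (1 / α) := by linarith
  rcases Nat.eq_zero_or_pos n with h0 | h0
  · subst h0
    have e : (0 + α * ((0 : ℕ) : ℝ)) = 0 := by simp
    simp only [e] at h1 ⊢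
    show Z 0 ≤ _
    have h2 : 0 ≤ |C| * (max 1 (1 / α)) ^ ε := by positivity
    calc Z 0 ≤ (|C| * (max 1 (1 / α)) ^ ε + Z 0) * 1 := by linarith
      _ ≤ _ := mul_le_mul_of_nonneg_left h1 (by linarith)
  · have h2 := hC n h0
    have hn : (0:ℝ) ≤ n := Nat.cast_nonneg n
    have h3 : (n:ℝ) ≤ max 1 (1 / α) * (1 + |0 + α * (n:ℝ)|) := by
      rw [zero_add, abs_of_nonneg (by positivity)]
      have h4 : (n:ℝ) = 1 / α * (α * n) := by field_simp
      have h5 : 1 / α * (α * n) ≤ max 1 (1 / α) * (α * n) :=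
        mul_le_mul_of_nonneg_right (le_max_right _ _) (by positivity)
      nlinarith
    have h4 : (n:ℝ) ^ ε ≤ (max 1 (1 / α)) ^ ε * (1 + |0 + α * (n:ℝ)|) ^ (0 + ε) := by
      rw [zero_add ε, ← Real.mul_rpow hD0.le (by positivity)]
      exact Real.rpow_le_rpow hn h3 hε.le
    show Z (0 + α * (n:ℝ)) ≤ (|C| * (max 1 (1 / α)) ^ ε + Z 0) * (1 + |0 + α * (n:ℝ)|) ^ (0 + ε)
    rw [zero_add (α * (n:ℝ))] at h4 h1 ⊢
    calc Z (α * n) ≤ C * (n:ℝ) ^ ε := h2
      _ ≤ |C| * (n:ℝ) ^ ε := mul_le_mul_of_nonneg_right (le_abs_self C) (by positivity)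
      _ ≤ |C| * ((max 1 (1 / α)) ^ ε * (1 + |α * (n:ℝ)|) ^ (0 + ε)) :=
          mul_le_mul_of_nonneg_left h4 (abs_nonneg C)
      _ = |C| * (max 1 (1 / α)) ^ ε * (1 + |α * (n:ℝ)|) ^ (0 + ε) := by ring
      _ ≤ (|C| * (max 1 (1 / α)) ^ ε + Z 0) * (1 + |α * (n:ℝ)|) ^ (0 + ε) :=
          mul_le_mul_of_nonneg_right (by linarith) (by positivity)

lemma nat_of_exponent (h : Exponent 0) {α : ℝ} (hα : 0 < α) :
    ∀ ε : ℝ, 0 < ε → ∃ C : ℝ, ∀ n : ℕ, 1 ≤ n → Z (α * n) ≤ C * (n : ℝ) ^ ε := by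
  intro ε hε
  obtain ⟨C, hC⟩ := h ε hε
  refine ⟨|C| * (1 + α) ^ ε, fun n hn => ?_⟩
  have hn1 : (1:ℝ) ≤ n := by exact_mod_cast hn
  have h1 : 1 + |α * (n:ℝ)| ≤ (1 + α) * n := by
    rw [abs_of_nonneg (by positivity)]
    nlinarith
  have h2 := hC (α * n)
  rw [zero_add] at h2
  calc Z (α * n) ≤ C * (1 + |α * (n:ℝ)|) ^ ε := h2
    _ ≤ |C| * (1 + |α * (n:ℝ)|) ^ ε := mul_le_mul_of_nonneg_right (le_abs_self C) (by positivity)
    _ ≤ |C| * ((1 + α) * n) ^ ε :=
        mul_le_mul_of_nonneg_left (Real.rpow_le_rpow (by positivity) h1 hε.le) (abs_nonneg C)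
    _ = |C| * (1 + α) ^ ε * (n:ℝ) ^ ε := by
        rw [Real.mul_rpow (by linarith) (by linarith)]; ring

theorem result :
    -- the growth exponent along almost every sequence
    (∀ a b : ℕ → ℝ, Tendsto b atTop atTop → ∀ᵐ α : ℝ,
      Tendsto (fun n => a n + α * b n) atTop atTop →
      (∃ C : ℝ, ∀ n, |(a (n + 1) + α * b (n + 1)) - (a n + α * b n)| ≤ C) →
      ∀ κ : ℝ, 0 ≤ κ → (Exponent κ ↔ ExponentAlong (fun n => a n + α * b n) κ)) ∧
    -- the Lindelöf hypothesis is decided along arithmetic progressions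
    ((∀ ε : ℝ, 0 < ε → ∃ C : ℝ, ∀ t : ℝ, ‖riemannZeta (1 / 2 + t * Complex.I)‖ ≤ C * (1 + |t|) ^ ε) ↔
      volume {α : ℝ | 0 < α ∧ ∀ ε : ℝ, 0 < ε → ∃ C : ℝ, ∀ n : ℕ, 1 ≤ n →
        ‖riemannZeta (1 / 2 + ((α * n : ℝ) : ℂ) * Complex.I)‖ ≤ C * (n : ℝ) ^ ε} ≠ 0) := by
  refine ⟨fun a b hb => N798.pointwise hb, ?_⟩
  have e : (∀ ε : ℝ, 0 < ε → ∃ C : ℝ, ∀ t : ℝ, ‖riemannZeta (1 / 2 + t * Complex.I)‖ ≤ C * (1 + |t|) ^ ε) ↔
      Exponent 0 := by
    unfold Exponent Z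
    simp only [zero_add]
  rw [e]
  constructor
  · intro h h0
    have h1 : Set.Ioi (0:ℝ) ⊆ {α : ℝ | 0 < α ∧ ∀ ε : ℝ, 0 < ε → ∃ C : ℝ, ∀ n : ℕ, 1 ≤ n →
        ‖riemannZeta (1 / 2 + ((α * n : ℝ) : ℂ) * Complex.I)‖ ≤ C * (n : ℝ) ^ ε} :=
      fun α hα => ⟨hα, nat_of_exponent h hα⟩
    have h2 := measure_mono_null h1 h0
    rw [Real.volume_Ioi] at h2
    exact ENNReal.top_ne_zero h2
  · intro h
    by_contra hE
    apply h
    have h1 := N798.pointwise (a := fun _ => 0) (b := fun n => (n:ℝ)) tendsto_natCast_atTop_atTop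
    rw [measure_eq_zero_iff_ae_notMem]
    filter_upwards [h1] with α hα
    rintro ⟨hα0, hα1⟩
    refine hE ((hα ?_ ⟨α, fun n => ?_⟩ 0 le_rfl).2 (along_nat hα0 hα1))
    · simp only [zero_add]
      exact Tendsto.const_mul_atTop hα0 tendsto_natCast_atTop_atTop
    · push_cast
      rw [show 0 + α * ((n:ℝ) + 1) - (0 + α * (n:ℝ)) = α by ring, abs_of_pos hα0]

end Pool.Agent.Results.MP_4e5e8a_nt.AlmostEverySequence
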