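import Pool.Agent.N804.GM.AllZ

/-!
# The Lindelöf hypothesis is a statement about geometric means

`G t` and `H t` are logarithms of geometric means of `|ζ|`: on the critical line, with respect to
the probability density `π⁻¹ (1 + (u - t)²)⁻¹`, and on the horizontal segment from `1/2 + it` to
`1 + it`.  (The mean of `log |ζ|` over the whole half-line from `1/2 + it` is, up to `O(1)`, the
function `π S₁(t)`.)

Idea of the proof.  By the Poisson-Jensen formula in `Re s > 1/2`, `G t + O(1)` is the sum over the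
zeros `β + iγ` to the right of the critical line of a quantity `≫ (β - 1/2) / (1 + (t - γ)²)`; so
an upper bound for `G t` shows that there are few zeros near height `t` off the line, and then
`|ζ(1/2 + it)|` is small by a local form of the theorem of Backlund.
-/

open Filter MeasureTheory

namespace Pool.Agent.Results.MP_4e5e8a_nt.GeometricMeans

/-- The Lindelöf hypothesis. -/
def Lindelof : Prop := ∀ ε : ℝ, 0 < ε → ∃ C : ℝ, ∀ t : ℝ,
  ‖riemannZeta (1 / 2 + t * Complex.I)‖ ≤ C * (1 + |t|) ^ ε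

/-- the logarithm of the Poisson geometric mean of `|ζ|` on the critical line at height `t` -/
noncomputable def G (t : ℝ) : ℝ :=
  1 / Real.pi * ∫ u : ℝ, Real.log ‖riemannZeta (1 / 2 + u * Complex.I)‖ / (1 + (u - t) ^ 2)

/-- the logarithm of the geometric mean of `|ζ|` on the segment from `1/2 + it` to `1 + it` -/
noncomputable def H (t : ℝ) : ℝ :=
  2 * ∫ σ in (1 / 2 : ℝ)..1, Real.log ‖riemannZeta (σ + t * Complex.I)‖

/-- (1) The integral in `G t` converges and `G` is bounded below. (2) If `|ζ(1/2 + it)| > t^ε`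
then `G t > η log t`, `η = η(ε) > 0`. (3) If `|ζ(1/2 + it)| > t^ε` then `H u > η log t` for some
`u` with `|u - t| ≤ A`, `A = A(ε)`. (4) The Lindelöf hypothesis is equivalent to
`limsup G(t) / log t ≤ 0` and to `limsup H(t) / log t ≤ 0`. -/
theorem result :
    (∃ C : ℝ, ∀ t : ℝ, 4 ≤ t → -C ≤ G t ∧
      Integrable fun u : ℝ => Real.log ‖riemannZeta (1 / 2 + u * Complex.I)‖ / (1 + (u - t) ^ 2)) ∧
    (∀ ε : ℝ, 0 < ε → ∃ η t₀ : ℝ, 0 < η ∧ ∀ t : ℝ, t₀ ≤ t → G t ≤ η * Real.log t →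
      ‖riemannZeta (1 / 2 + t * Complex.I)‖ ≤ t ^ ε) ∧
    (∀ ε : ℝ, 0 < ε → ∃ η A t₀ : ℝ, 0 < η ∧ ∀ t : ℝ, t₀ ≤ t →
      (∀ u : ℝ, |u - t| ≤ A → H u ≤ η * Real.log t) →
        ‖riemannZeta (1 / 2 + t * Complex.I)‖ ≤ t ^ ε) ∧
    List.TFAE [Lindelof, ∀ ε : ℝ, 0 < ε → ∀ᶠ t : ℝ in atTop, G t ≤ ε * Real.log t,
      ∀ ε : ℝ, 0 < ε → ∀ᶠ t : ℝ in atTop, H t ≤ ε * Real.log t] := by
  have hπ := Real.pi_pos
  have hG : ∀ t, G t = 1 / Real.pi * N804.GM.VV t := fun t => rfl
  have hH : ∀ t, H t = 2 * N804.GM.HH t := fun t => rfl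
  have e1 : ∀ (t c : ℝ), G t ≤ c ↔ N804.GM.VV t ≤ Real.pi * c := by
    intro t c
    rw [hG, one_div, inv_mul_le_iff₀ hπ]
  have e2 : ∀ (t c : ℝ), H t ≤ c ↔ N804.GM.HH t ≤ c / 2 := by
    intro t c
    rw [hH, le_div_iff₀ (by norm_num), mul_comm]
  refine ⟨?_, fun ε hε => ?_, fun ε hε => ?_, ?_⟩
  · obtain ⟨C, hC, h⟩ := N804.GM.zv 0
    refine ⟨C / Real.pi, fun t ht => ⟨?_, (h t ht).1⟩⟩
    have h1 := (h t ht).2 ∅ (by simp)
    rw [Finset.sum_empty] at h1
    have h2 : 0 ≤ N804.GM.VV t + C := by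
      by_contra hcon
      have := mul_neg_of_pos_of_neg hC (not_le.1 hcon)
      linarith
    rw [hG, ← sub_nonneg]
    have : 1 / Real.pi * N804.GM.VV t - -(C / Real.pi) = (N804.GM.VV t + C) / Real.pi := by ring
    rw [this]
    positivity
  · obtain ⟨η, t₀, hη, -, h⟩ := N804.GM.loc_V N804.GM.zv ε hε
    refine ⟨η / Real.pi, t₀, by positivity, fun t ht hV => h t ht ?_⟩
    rw [e1] at hV
    refine hV.trans (le_of_eq ?_)
    field_simp
  · obtain ⟨η, A, t₀, hη, -, h⟩ := N804.GM.loc_H N804.GM.zh N804.GM.hu ε hε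
    refine ⟨2 * η, A, t₀, by positivity, fun t ht hV => h t ht fun u hu => ?_⟩
    have := (e2 _ _).1 (hV u hu)
    refine this.trans (le_of_eq ?_)
    ring
  · have h := N804.GM.zeta_crit N804.GM.zv N804.GM.zh N804.GM.hu N804.GM.cv N804.GM.ch
    have a1 : (∀ ε : ℝ, 0 < ε → ∀ᶠ t : ℝ in atTop, G t ≤ ε * Real.log t) ↔
        ∀ ε : ℝ, 0 < ε → ∀ᶠ t : ℝ in atTop, N804.GM.VV t ≤ ε * Real.log t := by
      constructor
      · intro h ε hε
        filter_upwards [h (ε / Real.pi) (by positivity)] with t ht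
        refine ((e1 _ _).1 ht).trans (le_of_eq ?_)
        field_simp
      · intro h ε hε
        filter_upwards [h (Real.pi * ε) (by positivity)] with t ht
        rw [e1]
        refine ht.trans (le_of_eq ?_)
        ring
    have a2 : (∀ ε : ℝ, 0 < ε → ∀ᶠ t : ℝ in atTop, H t ≤ ε * Real.log t) ↔
        ∀ ε : ℝ, 0 < ε → ∀ᶠ t : ℝ in atTop, N804.GM.HH t ≤ ε * Real.log t := by
      constructor
      · intro h ε hε
        filter_upwards [h (2 * ε) (by positivity)] with t ht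
        refine ((e2 _ _).1 ht).trans (le_of_eq ?_)
        ring
      · intro h ε hε
        filter_upwards [h (ε / 2) (by positivity)] with t ht
        rw [e2]
        refine ht.trans (le_of_eq ?_)
        ring
    rw [a1, a2]
    exact h

end Pool.Agent.Results.MP_4e5e8a_nt.GeometricMeans
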