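import Pool.Agent.N798.Mom4

/-!
# All moment exponents of zeta are attained along almost every arithmetic progression

* (moments) Let `a 0 > 0` and let the gaps `a (n + 1) - a n` lie between two positive constants. For almost every
  `α > 0` the following holds for all real `p > 0` and `M ≥ 1` simultaneously: the moment of order `p` of zeta on
  the critical line, `∫_1^T |ζ(1/2 + it)|^p dt`, is `O(T^(M + ε))` for all `ε > 0` if and only if the discrete moment
  `∑_{n < N} |ζ(1/2 + iα a_n)|^p` is `O(N^(M + ε))` for all `ε > 0`. (No exponent `M < 1` is possible.)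
* (criterion) The Lindelöf hypothesis holds if and only if the set of the `α > 0` for which
  `∑_{n ≤ N} |ζ(1/2 + iαn)|^(2k) = O(N^(1 + ε))` for all `k ≥ 1` and `ε > 0` is not a null set.

Proof.  From the integral to the sums: averaging over `α`, a convergent series. From the sums to the integral:
around every large value there is a window of constant length in which zeta is almost as large on a set of constant
measure (`Pool.Agent.R303.LM.law`, helper303 of an earlier round). For each `α` and each dyadic block of heights there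
is a small interval around `α` such that on the average over `α'` in this interval the multiples of `α'` meet a
fixed proportion (weighted with the `p`-th powers of the values) of these sets; as the weighted number of the sets
that are met is never more than the total, a fixed proportion of the `α'` meets a fixed proportion of
the sets. Lebesgue's density theorem.
-/

set_option autoImplicit false

open Filter Topology MeasureTheory

namespace Pool.Agent.Results.MP_4e5e8a_nt.MomentsAlongProgressions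

/-- `|ζ(1/2 + it)|` -/
noncomputable def Z (t : ℝ) : ℝ := ‖riemannZeta (1 / 2 + t * Complex.I)‖

/-- `∫_1^T |ζ(1/2 + it)|^p dt = O(T^(M + ε))` for every `ε > 0` -/
def Moment (p M : ℝ) : Prop :=
  ∀ ε : ℝ, 0 < ε → ∃ A : ℝ, ∀ T : ℝ, 1 ≤ T → ∫ t in (1:ℝ)..T, Z t ^ p ≤ A * T ^ (M + ε)

/-- `∑_{n < N} |ζ(1/2 + i t_n)|^p = O(N^(M + ε))` for every `ε > 0` -/
def MomentAlong (t : ℕ → ℝ) (p M : ℝ) : Prop :=
  ∀ ε : ℝ, 0 < ε → ∃ A : ℝ, ∀ N : ℕ, 1 ≤ N → ∑ n ∈ Finset.range N, Z (t n) ^ p ≤ A * (N : ℝ) ^ (M + ε)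

lemma moment_one {a : ℕ → ℝ} (ha : ∀ n, a n = n + 1) : N798.Del a 1 1 := by
  refine ⟨one_pos, by rw [ha]; norm_num, fun n => ?_, fun n => ?_⟩
  · rw [ha, ha]; push_cast; linarith
  · rw [ha, ha]; push_cast; linarith

lemma sum_shift {α : ℝ} {k N : ℕ} : ∑ n ∈ Finset.range N, Z (α * ((n:ℝ) + 1)) ^ (2 * (k:ℝ)) =
    ∑ n ∈ Finset.Icc 1 N, Z (α * n) ^ (2 * k) := by
  have h := Finset.sum_Ico_add' (fun n : ℕ => Z (α * n) ^ (2 * k)) 0 N 1
  rw [zero_add, ← Finset.range_eq_Ico] at h
  have e : Finset.Ico 1 (N + 1) = Finset.Icc 1 N := by ext n; simp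
  rw [← e, ← h]
  refine Finset.sum_congr rfl fun n _ => ?_
  rw [← Real.rpow_natCast]
  push_cast
  rfl

theorem result :
    -- all moment exponents along almost every dilate
    (∀ (a : ℕ → ℝ) (c C : ℝ), 0 < c → 0 < a 0 → (∀ n, c ≤ a (n + 1) - a n ∧ a (n + 1) - a n ≤ C) →
      ∀ᵐ α : ℝ, 0 < α → ∀ p M : ℝ, 0 < p → 1 ≤ M →
        (Moment p M ↔ MomentAlong (fun n => α * a n) p M)) ∧
    -- the Lindelöf hypothesis is decided by the moments along arithmetic progressions
    ((∀ ε : ℝ, 0 < ε → ∃ C : ℝ, ∀ t : ℝ, Z t ≤ C * (1 + |t|) ^ ε) ↔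
      volume {α : ℝ | 0 < α ∧ ∀ k : ℕ, 1 ≤ k → ∀ ε : ℝ, 0 < ε → ∃ A : ℝ, ∀ N : ℕ, 1 ≤ N →
        ∑ n ∈ Finset.Icc 1 N, Z (α * n) ^ (2 * k) ≤ A * (N : ℝ) ^ (1 + ε)} ≠ 0) := by
  refine ⟨fun a c C hc ha0 ha => N798.moments ⟨hc, ha0, fun n => (ha n).1, fun n => (ha n).2⟩, ?_⟩
  constructor
  · intro h h0
    have h1 : Set.Ioi (0:ℝ) ⊆ {α : ℝ | 0 < α ∧ ∀ k : ℕ, 1 ≤ k → ∀ ε : ℝ, 0 < ε → ∃ A : ℝ, ∀ N : ℕ, 1 ≤ N →
        ∑ n ∈ Finset.Icc 1 N, Z (α * n) ^ (2 * k) ≤ A * (N : ℝ) ^ (1 + ε)} := by
      intro α hα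
      have hα0 : 0 < α := hα
      refine ⟨hα0, fun k hk ε hε => ?_⟩
      have hk0 : (0:ℝ) < k := by exact_mod_cast hk
      obtain ⟨C, hC⟩ := h (ε / (2 * k)) (by positivity)
      have hC0 : 0 ≤ C := by
        have h1 := hC 0
        have h2 : 0 ≤ Z 0 := norm_nonneg _
        simp at h1
        linarith
      refine ⟨C ^ (2 * k) * (1 + α) ^ ε, fun N hN => ?_⟩
      have hN1 : (1:ℝ) ≤ N := by exact_mod_cast hN
      have h2 : ∀ n ∈ Finset.Icc 1 N, Z (α * n) ^ (2 * k) ≤ C ^ (2 * k) * ((1 + α) * N) ^ ε := by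
        intro n hn
        have hn2 : (n:ℝ) ≤ N := by exact_mod_cast (Finset.mem_Icc.1 hn).2
        have h3 : 1 + |α * (n:ℝ)| ≤ (1 + α) * N := by
          rw [abs_of_nonneg (by positivity)]
          nlinarith
        have h4 : Z (α * n) ≤ C * ((1 + α) * N) ^ (ε / (2 * k)) :=
          (hC _).trans (mul_le_mul_of_nonneg_left (Real.rpow_le_rpow (by positivity) h3 (by positivity)) hC0)
        calc Z (α * n) ^ (2 * k) ≤ (C * ((1 + α) * N) ^ (ε / (2 * k))) ^ (2 * k) :=
              pow_le_pow_left₀ (norm_nonneg _) h4 _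
          _ = C ^ (2 * k) * ((1 + α) * N) ^ ε := by
              rw [mul_pow, ← Real.rpow_mul_natCast (by positivity)]
              congr 2
              push_cast
              field_simp
      refine (Finset.sum_le_sum h2).trans ?_
      rw [Finset.sum_const, Nat.card_Icc, nsmul_eq_mul, Nat.add_sub_cancel,
        Real.mul_rpow (by positivity) (by positivity), Real.rpow_add (by positivity), Real.rpow_one]
      apply le_of_eq; ring
    have h2 := measure_mono_null h1 h0
    rw [Real.volume_Ioi] at h2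
    exact ENNReal.top_ne_zero h2
  · intro h
    by_contra hE
    apply h
    have hE' : ¬ R303.LM.Exponent 0 := by
      intro h1
      apply hE
      intro ε hε
      obtain ⟨C, hC⟩ := h1 ε hε
      exact ⟨C, fun t => by rw [← zero_add ε]; exact hC t⟩
    have h1 := N798.fail_null (a := fun _ => 0) (b := fun n => (n:ℝ) + 1)
      (tendsto_atTop_add_const_right _ _ tendsto_natCast_atTop_atTop) le_rfl hE'
    refine measure_mono_null ?_ h1
    rintro α ⟨hα0, hα⟩
    have hDel : N798.Del (fun n : ℕ => (n:ℝ) + 1) 1 1 := moment_one fun n => rfl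
    refine ⟨?_, ⟨α, fun n => ?_⟩, ?_⟩
    · simp only [zero_add]
      exact Tendsto.const_mul_atTop hα0 (tendsto_atTop_add_const_right _ _ tendsto_natCast_atTop_atTop)
    · push_cast
      rw [show 0 + α * ((n:ℝ) + 1 + 1) - (0 + α * ((n:ℝ) + 1)) = α by ring, abs_of_pos hα0]
    · simp only [zero_add]
      apply N798.along_zero_of_moments hDel hα0
      intro k hk ε hε
      obtain ⟨A, hA⟩ := hα k hk ε hε
      refine ⟨A, fun N hN => ?_⟩
      have := hA N hN
      rw [← sum_shift] at this
      exact this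

end Pool.Agent.Results.MP_4e5e8a_nt.MomentsAlongProgressions
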