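import Pool.Agent.N799.LH.Main

/-!
A Speiser type theorem for the Lindelöf hypothesis: for any non-zero constant coefficient
differential polynomial of the zeta function, the Lindelöf hypothesis is equivalent to the scarcity
of its zeros to the left of the critical line, and also to the scarcity of its zeros to the right
of the critical line; the comparison is local.
-/

set_option autoImplicit false

namespace Pool.Agent.Results.MP_4e5e8a_nt.SpeiserLindelof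

/-- `p(d/ds) ζ (s)`: if `p = ∑ a_j X^j` then this is `∑ a_j ζ^(j)(s)`. -/
noncomputable def D (p : Polynomial ℂ) (s : ℂ) : ℂ :=
  p.sum fun j a => a * iteratedDeriv j riemannZeta s

/-- The zeros of `D p` in `U`, counted with multiplicity, are at most `B` in number. -/
def FewZeros (p : Polynomial ℂ) (U : Set ℂ) (B : ℝ) : Prop :=
  ∀ S : Finset ℂ, (∀ z ∈ S, z ∈ U ∧ D p z = 0) → ∑ z ∈ S, (analyticOrderNatAt (D p) z : ℝ) ≤ B

/-- The Lindelöf hypothesis. -/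
def Lindelof : Prop := ∀ ε : ℝ, 0 < ε → ∃ C : ℝ, ∀ t : ℝ,
  ‖riemannZeta (1 / 2 + t * Complex.I)‖ ≤ C * (1 + |t|) ^ ε

theorem result (p : Polynomial ℂ) (hp : p ≠ 0) :
    (∀ ε : ℝ, 0 < ε → ∃ η A t₀ : ℝ, 0 < η ∧ ∀ t : ℝ, t₀ ≤ t →
      (FewZeros p {s | s.re ≤ 1 / 2 - η ∧ |s.im - t| ≤ A} (η * Real.log t) →
        ‖riemannZeta (1 / 2 + t * Complex.I)‖ ≤ t ^ ε) ∧
      (FewZeros p {s | 1 / 2 + η ≤ s.re ∧ |s.im - t| ≤ A} (η * Real.log t) →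
        ‖riemannZeta (1 / 2 + t * Complex.I)‖ ≤ t ^ ε) ∧
      ((∀ y : ℝ, |y - t| ≤ A → ‖riemannZeta (1 / 2 + y * Complex.I)‖ ≤ t ^ η) →
        FewZeros p {s | ε ≤ |s.re - 1 / 2| ∧ |s.im - t| ≤ 1} (ε * Real.log t))) ∧
    (Lindelof ↔ ∀ δ : ℝ, 0 < δ → ∀ ε : ℝ, 0 < ε → ∃ T₀ : ℝ, ∀ T : ℝ, T₀ ≤ T →
      FewZeros p {s | s.re ≤ 1 / 2 - δ ∧ T ≤ s.im ∧ s.im ≤ T + 1} (ε * Real.log T)) ∧
    (Lindelof ↔ ∀ δ : ℝ, 0 < δ → ∀ ε : ℝ, 0 < ε → ∃ T₀ : ℝ, ∀ T : ℝ, T₀ ≤ T →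
      FewZeros p {s | 1 / 2 + δ ≤ s.re ∧ T ≤ s.im ∧ s.im ≤ T + 1} (ε * Real.log T)) :=
  ⟨fun ε hε => Pool.Agent.N799.LH.local_thm p hp ε hε, Pool.Agent.N799.LH.left_iff p hp,
    Pool.Agent.N799.LH.right_iff p hp⟩

end Pool.Agent.Results.MP_4e5e8a_nt.SpeiserLindelof
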